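import Pool.Agent.Helper88.PP.Defs2
import Pool.Agent.Helper34.TR.CorP
import Pool.Agent.Helper34.TR.Pf
import Pool.Agent.Helper26.TR.One

set_option autoImplicit false

/-!
MP_120218_co, project PP (popular primes), module M7: the products.  If most elements have few
elements with the same `P`-free part and no prime outside `P` is popular, then the product set is
large.
-/

open Finset

namespace Pool.Agent.Helper34.PP

open Pool.Agent.Helper26.TR Pool.Agent.Helper34.TR

/-- the same valuations outside `P`: the `P`-free parts agree up to the sign -/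
theorem pf_eq_or_neg {P : Finset ℕ} (hP : ∀ q ∈ P, q.Prime) {b b' : ℤ} (hb : b ≠ 0) (hb' : b' ≠ 0)
    (h : ∀ q : ℕ, q.Prime → q ∉ P → padicValInt q b = padicValInt q b') :
    pf P b' = pf P b ∨ pf P b' = - pf P b := by
  have h0 := pf_ne_zero hP hb
  have h0' := pf_ne_zero hP hb'
  have hv : ∀ q : ℕ, q.Prime → padicValInt q (pf P b') = padicValInt q (pf P b) := by
    intro q hq
    rw [val_pf hP hb hq, val_pf hP hb' hq]
    split_ifs with hqP
    · rfl
    · exact (h q hq hqP).symm
  have habs : (pf P b').natAbs = (pf P b).natAbs := by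
    apply Nat.eq_of_factorization_eq (Int.natAbs_ne_zero.2 h0') (Int.natAbs_ne_zero.2 h0)
    intro q
    by_cases hq : q.Prime
    · rw [← fact_eq hq, ← fact_eq hq]
      exact hv q hq
    · rw [Nat.factorization_eq_zero_of_not_prime _ hq,
        Nat.factorization_eq_zero_of_not_prime _ hq]
  exact Int.natAbs_eq_natAbs_iff.1 habs

/-- **M7, simplified.** -/
theorem prodSide0 : Pool.Agent.Helper88.PP.ProdSide0 := by
  classical
  intro k ε hε
  have hk1 : (0 : ℝ) < (k : ℝ) + 1 := by positivity
  set ζ : ℝ := ε / (k + 1) with hζ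
  have hζ0 : 0 < ζ := by positivity
  obtain ⟨κ₀, K, τ, C, hκ₀, hκ₀1, hK, hτ, hC, hmain⟩ := corP k ζ hζ0
  set C' : ℝ := 1 + 2 / κ₀ + Real.exp (k * (2 * Real.log 2 + 1)) with hC'
  have hp1 : 0 < 2 / κ₀ := by positivity
  have hp4 : 0 < Real.exp (k * (2 * Real.log 2 + 1)) := Real.exp_pos _
  have hC'1 : 1 ≤ C' := by rw [hC']; linarith
  have hC'κ : 2 / κ₀ ≤ C' := by rw [hC']; linarith
  have hC'e : Real.exp (k * (2 * Real.log 2 + 1)) ≤ C' := by rw [hC']; linarith
  have hC'0 : 0 < C' := by linarith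
  clear_value C'
  refine ⟨C', hC'1, ?_⟩
  intro A P F hA0 hA3 hP hF hfew hun
  have hAne : A.Nonempty := card_pos.1 (by omega)
  have hN3 : (3 : ℝ) ≤ A.card := by exact_mod_cast hA3
  have hNpos : (0 : ℝ) < A.card := by linarith
  have hF1 : (1 : ℝ) ≤ F := by exact_mod_cast hF
  have hFpos : (0 : ℝ) < F := by linarith
  have hprodne : (prodSet k A).Nonempty := by
    unfold prodSet
    apply Nonempty.image
    rw [Fintype.piFinset_nonempty]
    exact fun _ => hAne
  have hprodpos : (0 : ℝ) < ((prodSet k A).card : ℝ) := by exact_mod_cast card_pos.2 hprodne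
  set L : ℝ := Real.log (A.card : ℝ) with hL
  have hL1 : 1 ≤ L := by
    rw [hL, Real.le_log_iff_exp_le hNpos]
    have h3 : Real.exp 1 < 2.7182818286 := Real.exp_one_lt_d9
    linarith
  -- the set of the elements with small fibres
  set Y : Finset ℤ := A.filter (fun a => (Pool.Agent.Helper88.PP.cls P A a).card ≤ F) with hY
  have hYA : Y ⊆ A := filter_subset _ _
  have hY0 : (0 : ℤ) ∉ Y := fun h => hA0 (hYA h)
  have hYne : Y.Nonempty := by
    rw [← card_pos]
    have h1 : (0 : ℝ) < Y.card := by linarith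
    exact_mod_cast h1
  have hYpos : (0 : ℝ) < Y.card := by exact_mod_cast card_pos.2 hYne
  have hfib : ∀ b ∈ Y, (Y.filter (fun b' => pf P b' = pf P b)).card ≤ F := by
    intro b hb
    refine le_trans (card_le_card ?_) (mem_filter.1 hb).2
    unfold Pool.Agent.Helper88.PP.cls
    exact filter_subset_filter _ hYA
  have hfib' : ∀ z : ℤ, (Y.filter (fun b' => pf P b' = z)).card ≤ F := by
    intro z
    rcases (Y.filter (fun b' => pf P b' = z)).eq_empty_or_nonempty with h | ⟨b, hb⟩
    · rw [h, card_empty]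
      omega
    · obtain ⟨hbY, hbz⟩ := mem_filter.1 hb
      rw [← hbz]
      exact hfib b hbY
  -- the levels
  set n : ℕ := bd (fun _ : Fin 1 => A) with hn
  set lam : ℕ → ℕ := fun q => lev (κ₀ / 2) A q with hlam
  have hκ2 : 0 < κ₀ / 2 := by positivity
  have hlam0 : ∀ q, n ≤ q → lam q = 0 := by
    intro q hq
    exact lev_zero_of_bd (A := fun _ : Fin 1 => A) (fun _ => hA0) (l := 0) hq
  have hlamP : ∀ q : ℕ, q.Prime → q ∉ P → lam q = 0 := by
    intro q hq hqP
    by_contra hne
    have h1 := lev_pop (κ := κ₀ / 2) (by linarith) A q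
    have h2 : ((A.filter (fun a => (q : ℤ) ^ lev (κ₀ / 2) A q ∣ a)).card : ℝ) ≤
        ((A.filter (fun a => ((q : ℤ) ∣ a))).card : ℝ) := by
      apply Nat.cast_le.2
      apply card_le_card
      intro a ha
      rw [mem_filter] at ha ⊢
      exact ⟨ha.1, (dvd_pow_self (q : ℤ) hne).trans ha.2⟩
    have h3 := hun q hq hqP
    have h4 : C' * (κ₀ / 2 * (A.card : ℝ)) ≤
        C' * ((A.filter (fun a => ((q : ℤ) ∣ a))).card : ℝ) :=
      mul_le_mul_of_nonneg_left (h1.trans h2) hC'0.le
    have h5 : 2 / κ₀ * (κ₀ / 2 * (A.card : ℝ)) ≤ C' * (κ₀ / 2 * (A.card : ℝ)) :=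
      mul_le_mul_of_nonneg_right hC'κ (by positivity)
    have h6 : 2 / κ₀ * (κ₀ / 2 * (A.card : ℝ)) = A.card := by field_simp
    linarith
  -- the cells
  have hcell : ∀ b ∈ Y, {b' : ℤ | b' ∈ Y ∧
      Pool.Agent.Helper84.TR.Close
        (Pool.Agent.Helper84.TR.UresC K τ L (WC n (fun q => Real.log q) lam)
          (fun q => Real.log q) lam) b b'}.ncard ≤ 2 * F := by
    intro b hb
    have hb0 : b ≠ 0 := fun h => hY0 (h ▸ hb)
    have hsub : {b' : ℤ | b' ∈ Y ∧
        Pool.Agent.Helper84.TR.Close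
          (Pool.Agent.Helper84.TR.UresC K τ L (WC n (fun q => Real.log q) lam)
            (fun q => Real.log q) lam) b b'} ⊆
        ((Y.filter (fun b' => pf P b' = pf P b) ∪ Y.filter (fun b' => pf P b' = - pf P b) :
          Finset ℤ) : Set ℤ) := by
      rintro b' ⟨hb'Y, hclose⟩
      have hb'0 : b' ≠ 0 := fun h => hY0 (h ▸ hb'Y)
      have hv : ∀ q : ℕ, q.Prime → q ∉ P → padicValInt q b = padicValInt q b' := by
        intro q hq hqP
        have h1 := hclose q hq
        unfold Pool.Agent.Helper84.TR.UresC at h1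
        rw [if_pos (hlamP q hq hqP)] at h1
        have h2 : |((padicValInt q b : ℤ) - padicValInt q b')| < 1 := by exact_mod_cast h1
        have h3 := Int.abs_lt_one_iff.1 h2
        omega
      rcases pf_eq_or_neg hP hb0 hb'0 hv with h | h
      · exact mem_coe.2 (mem_union_left _ (mem_filter.2 ⟨hb'Y, h⟩))
      · exact mem_coe.2 (mem_union_right _ (mem_filter.2 ⟨hb'Y, h⟩))
    refine le_trans (Set.ncard_le_ncard hsub (Finset.finite_toSet _)) ?_
    rw [Set.ncard_coe_finset]
    refine (card_union_le _ _).trans ?_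
    have h1 := hfib' (pf P b)
    have h2 := hfib' (- pf P b)
    omega
  have key := hmain (fun _ => Y) L (2 * F) n (fun _ => lam) hL1 (by omega) (fun _ => hYne)
    (fun _ => hY0) (fun _ => by
      rw [hL, Real.exp_log hNpos]
      exact_mod_cast card_le_card hYA)
    (fun _ q hq => hlam0 q hq)
    (fun l l' _ q hq => by
      have h23 := cdiv_lt hκ2 hAne hA0 hq (l := lam q + 1) (by simp only [hlam]; omega)
      have h24 : ((Y.filter (fun b => (q : ℤ) ^ (lam q + 1) ∣ b)).card : ℝ) ≤
          (cdiv A ((q : ℤ) ^ (lam q + 1)) : ℝ) := by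
        unfold cdiv
        apply Nat.cast_le.2
        exact card_le_card (filter_subset_filter _ hYA)
      refine h24.trans (h23.le.trans ?_)
      calc κ₀ / 2 * (A.card : ℝ) ≤ κ₀ / 2 * (2 * (Y.card : ℝ)) :=
            mul_le_mul_of_nonneg_left hfew hκ2.le
        _ = κ₀ * Y.card := by ring)
    (fun l _ => Or.inr ⟨fun q => Real.log q,
      fun q hq => Real.log_pos (by exact_mod_cast hq.one_lt), hcell⟩)
  have hsub : (Fintype.piFinset (fun _ : Fin k => Y)).image (fun f : Fin k → ℤ => ∏ i, f i) ⊆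
      prodSet k A := by
    unfold prodSet
    apply image_subset_image
    intro f hf
    rw [Fintype.mem_piFinset] at hf ⊢
    exact fun l => hYA (hf l)
  have hYprodne :
      ((Fintype.piFinset (fun _ : Fin k => Y)).image
        (fun f : Fin k → ℤ => ∏ i, f i)).Nonempty := by
    apply Nonempty.image
    rw [Fintype.piFinset_nonempty]
    exact fun _ => hYne
  have h27 : Real.log (((Fintype.piFinset (fun _ : Fin k => Y)).image
      (fun f : Fin k → ℤ => ∏ i, f i)).card) ≤ Real.log ((prodSet k A).card : ℝ) := by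
    apply Real.log_le_log
    · exact_mod_cast card_pos.2 hYprodne
    · exact_mod_cast card_le_card hsub
  rw [sum_const, card_univ, Fintype.card_fin, nsmul_eq_mul] at key
  have hlogY : L - Real.log 2 ≤ Real.log (Y.card : ℝ) := by
    have h1 := Real.log_le_log hNpos hfew
    rw [Real.log_mul (by norm_num) hYpos.ne'] at h1
    rw [hL]
    linarith
  have hlogFM : Real.log ((2 * F : ℕ) : ℝ) = Real.log 2 + Real.log F := by
    push_cast
    rw [Real.log_mul (by norm_num) (by positivity)]
  have hk0 : (0 : ℝ) ≤ k := Nat.cast_nonneg k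
  have hkey2 : (k : ℝ) * L - ε * L ≤
      k * (2 * Real.log 2 + 1) + k * Real.log F + Real.log ((prodSet k A).card : ℝ) := by
    have h1 : (k : ℝ) * (L - Real.log 2) ≤ k * Real.log (Y.card : ℝ) :=
      mul_le_mul_of_nonneg_left hlogY hk0
    have h3 : (k : ℝ) * ζ ≤ ε := by
      rw [hζ]
      have h4 : (k : ℝ) * (ε / (k + 1)) = ε * (k / (k + 1)) := by
        field_simp
      rw [h4]
      have h5 : (k : ℝ) / (k + 1) ≤ 1 := by
        rw [div_le_one hk1]
        linarith
      calc ε * ((k : ℝ) / (k + 1)) ≤ ε * 1 := mul_le_mul_of_nonneg_left h5 hε.le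
        _ = ε := mul_one _
    have h6 : (k : ℝ) * ζ * L ≤ ε * L := mul_le_mul_of_nonneg_right h3 (by linarith)
    rw [hlogFM] at key
    nlinarith
  calc (A.card : ℝ) ^ ((k : ℝ) - ε) = Real.exp (k * L - ε * L) := by
        rw [Real.rpow_def_of_pos hNpos, ← hL]
        congr 1
        ring
    _ ≤ Real.exp (k * (2 * Real.log 2 + 1) + k * Real.log F +
          Real.log ((prodSet k A).card : ℝ)) := Real.exp_le_exp.2 hkey2
    _ = Real.exp (k * (2 * Real.log 2 + 1)) * (F : ℝ) ^ k * ((prodSet k A).card : ℝ) := by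
        rw [Real.exp_add, Real.exp_add, Real.exp_log hprodpos]
        congr 2
        rw [← Real.log_pow, Real.exp_log (by positivity)]
    _ ≤ C' * (F : ℝ) ^ k * ((prodSet k A).card : ℝ) := by
        apply mul_le_mul_of_nonneg_right _ hprodpos.le
        exact mul_le_mul_of_nonneg_right hC'e (by positivity)

end Pool.Agent.Helper34.PP
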