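import Pool.Agent.Helper88.PP.Defs
import Pool.Agent.Helper34.TR.CorP
import Pool.Agent.Helper34.TR.Count
import Pool.Agent.Helper34.TR.Pf
import Pool.Agent.Helper26.TR.One

set_option autoImplicit false

/-!
MP_120218_co, project PP (popular primes), module M7: the products.  If most elements have few
elements with the same `P`-free part and the popular prime powers outside `P` have small weight,
then the product set is large.
-/

open Finset

namespace Pool.Agent.Helper34.PP

open Pool.Agent.Helper26.TR Pool.Agent.Helper34.TR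

open Classical in
/-- a set with small fibres of `pf P` has small close classes for suitable prices -/
theorem fib_stage {K : ℕ} {τ L : ℝ} (hτ : 0 < τ) (hL : 0 < L) {n : ℕ} {lam : ℕ → ℕ}
    (hlam : ∀ q, n ≤ q → lam q = 0) {P : Finset ℕ} (hP : ∀ q ∈ P, q.Prime) {Y : Finset ℤ}
    (hY0 : (0 : ℤ) ∉ Y) {F : ℕ}
    (hfib : ∀ b ∈ Y, (Y.filter (fun b' => pf P b' = pf P b)).card ≤ F) {M : ℕ}
    (hcount : ∀ z : ℤ, (((Y.image (pf P)).filter (fun z' =>
      Close (Ures K (2 * τ) L (Wt n (fun q => if q ∈ P then 0 else lam q))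
        (fun q => if q ∈ P then 0 else lam q)) z z')).card) ≤ M) :
    ∃ c : ℕ → ℝ, (∀ q : ℕ, q.Prime → 0 < c q) ∧ ∀ b ∈ Y, {b' : ℤ | b' ∈ Y ∧
      Pool.Agent.Helper84.TR.Close
        (Pool.Agent.Helper84.TR.UresC K τ L (WC n c lam) c lam) b b'}.ncard ≤ F * M := by
  classical
  set lamP : ℕ → ℕ := fun q => if q ∈ P then 0 else lam q with hlamP
  set lamQ : ℕ → ℕ := fun q => if q ∈ P then lam q else 0 with hlamQ
  have hWt0 : ∀ f : ℕ → ℕ, 0 ≤ Wt n f := by
    intro f
    unfold Wt
    exact sum_nonneg fun q _ => mul_nonneg (Nat.cast_nonneg _) (Real.log_natCast_nonneg _)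
  set G0 : ℝ := if Wt n lamP = 0 then 1 else Wt n lamP with hG0def
  set G1 : ℝ := if Wt n lamQ = 0 then 1 else Wt n lamQ with hG1def
  have hG0pos : 0 < G0 := by
    rw [hG0def]
    split_ifs with h
    · exact one_pos
    · exact lt_of_le_of_ne (hWt0 _) (Ne.symm h)
  have hG1pos : 0 < G1 := by
    rw [hG1def]
    split_ifs with h
    · exact one_pos
    · exact lt_of_le_of_ne (hWt0 _) (Ne.symm h)
  have hG0' : Wt n lamP / G0 ≤ 1 := by
    rw [hG0def]
    split_ifs with h
    · rw [h]; norm_num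
    · rw [div_self h]
  have hG1' : Wt n lamQ / G1 ≤ 1 := by
    rw [hG1def]
    split_ifs with h
    · rw [h]; norm_num
    · rw [div_self h]
  set c : ℕ → ℝ := fun q => if q ∈ P then Real.log q / G1 else Real.log q / G0 with hc
  have hcpos : ∀ q : ℕ, q.Prime → 0 < c q := by
    intro q hq
    have hlog : 0 < Real.log (q : ℝ) := Real.log_pos (by exact_mod_cast hq.one_lt)
    rw [hc]
    simp only
    split_ifs
    · exact div_pos hlog hG1pos
    · exact div_pos hlog hG0pos
  have hWC : WC n c lam ≤ 2 := by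
    have h1 : WC n c lam = Wt n lamQ / G1 + Wt n lamP / G0 := by
      unfold WC Wt
      rw [sum_div, sum_div, ← sum_add_distrib]
      apply sum_congr rfl
      intro q _
      simp only [hc, hlamP, hlamQ]
      by_cases hq : q ∈ P
      · simp only [if_pos hq]
        push_cast
        ring
      · simp only [if_neg hq]
        push_cast
        ring
    rw [h1]
    linarith
  refine ⟨c, hcpos, ?_⟩
  intro b hb
  have hb0 : b ≠ 0 := fun h => hY0 (h ▸ hb)
  set Cl : Finset ℤ := Y.filter (fun b' => Pool.Agent.Helper84.TR.Close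
        (Pool.Agent.Helper84.TR.UresC K τ L (WC n c lam) c lam) b b') with hCl
  have hset : {b' : ℤ | b' ∈ Y ∧ Pool.Agent.Helper84.TR.Close
        (Pool.Agent.Helper84.TR.UresC K τ L (WC n c lam) c lam) b b'} = (Cl : Set ℤ) := by
    ext x
    rw [hCl, mem_coe, mem_filter]
    rfl
  rw [hset, Set.ncard_coe_finset]
  have h1 : Cl.card ≤ F * (Cl.image (pf P)).card := by
    apply card_le_mul_card_image
    intro z hz
    obtain ⟨b', hb', rfl⟩ := mem_image.1 hz
    have hb'Y : b' ∈ Y := (mem_filter.1 hb').1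
    refine le_trans (card_le_card ?_) (hfib b' hb'Y)
    intro x hx
    rw [mem_filter] at hx ⊢
    exact ⟨(mem_filter.1 hx.1).1, hx.2⟩
  refine h1.trans (Nat.mul_le_mul_left F (le_trans (card_le_card ?_) (hcount (pf P b))))
  intro z hz
  obtain ⟨b', hb', rfl⟩ := mem_image.1 hz
  obtain ⟨hb'Y, hclose⟩ := mem_filter.1 hb'
  have hb'0 : b' ≠ 0 := fun h => hY0 (h ▸ hb'Y)
  rw [mem_filter]
  refine ⟨mem_image_of_mem _ hb'Y, ?_⟩
  intro q hq
  rw [val_pf hP hb0 hq, val_pf hP hb'0 hq]
  by_cases hqP : q ∈ P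
  · simp only [if_pos hqP]
    have h0 : lamP q = 0 := by simp only [hlamP, if_pos hqP]
    unfold Ures
    rw [if_pos h0]
    norm_num
  · simp only [if_neg hqP]
    refine lt_of_lt_of_le (hclose q hq) ?_
    unfold Pool.Agent.Helper84.TR.UresC Ures
    simp only [hlamP, if_neg hqP]
    by_cases hl : lam q = 0
    · simp [hl]
    · rw [if_neg hl, if_neg hl]
      have hqn : q < n := by
        by_contra h
        exact hl (hlam q (not_lt.1 h))
      have hlog : 0 < Real.log (q : ℝ) := Real.log_pos (by exact_mod_cast hq.one_lt)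
      have hl1 : (1 : ℝ) ≤ lam q := by exact_mod_cast Nat.one_le_iff_ne_zero.2 hl
      have hterm : (lam q : ℝ) * Real.log q ≤ Wt n lamP := by
        unfold Wt
        have h3 : (lam q : ℝ) * Real.log q = (lamP q : ℝ) * Real.log q := by
          simp only [hlamP, if_neg hqP]
        rw [h3]
        exact single_le_sum (f := fun q : ℕ => (lamP q : ℝ) * Real.log q)
          (fun i _ => mul_nonneg (Nat.cast_nonneg _) (Real.log_natCast_nonneg i))
          (mem_filter.2 ⟨mem_range.2 hqn, hq⟩)
      have hWpos : 0 < Wt n lamP := by nlinarith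
      have hG0eq : G0 = Wt n lamP := by
        rw [hG0def, if_neg hWpos.ne']
      have hcq : c q = Real.log q / Wt n lamP := by
        simp only [hc, if_neg hqP, hG0eq]
      have h4 : τ * WC n c lam / (L * c q) ≤
          2 * τ * Wt n (fun q => if q ∈ P then 0 else lam q) / (L * Real.log q) := by
        rw [hcq]
        have h5 : τ * WC n c lam / (L * (Real.log q / Wt n lamP)) =
            (WC n c lam) * (τ * Wt n lamP / (L * Real.log q)) := by
          field_simp
        rw [h5]
        have h6 : 2 * τ * Wt n (fun q => if q ∈ P then 0 else lam q) / (L * Real.log q) =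
            2 * (τ * Wt n lamP / (L * Real.log q)) := by
          rw [hlamP]
          ring
        rw [h6]
        apply mul_le_mul_of_nonneg_right hWC
        positivity
      have h7 := Nat.ceil_mono h4
      push_cast
      have h8 : ((⌈τ * WC n c lam / (L * c q)⌉₊ : ℕ) : ℤ) ≤
          ((⌈2 * τ * Wt n (fun q => if q ∈ P then 0 else lam q) / (L * Real.log q)⌉₊ : ℕ) : ℤ) := by
        exact_mod_cast h7
      linarith

/-- **M7.** -/
theorem prodSide : Pool.Agent.Helper88.PP.ProdSide := by
  classical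
  intro k ε hε
  have hk1 : (0 : ℝ) < (k : ℝ) + 1 := by positivity
  set ζ : ℝ := ε / (2 * (k + 1)) with hζ
  have hζ0 : 0 < ζ := by positivity
  obtain ⟨κ₀, K, τ, C, hκ₀, hκ₀1, hK, hτ, hC, hmain⟩ := corP k ζ hζ0
  obtain ⟨δ, n₀, hδ, hcnt⟩ := countS K (2 * τ) ζ (by positivity) hζ0
  set n₁ : ℕ := max n₀ 16 with hn₁
  set C' : ℝ := 1 + 2 / κ₀ + 2 / δ + (n₁ : ℝ) ^ k + Real.exp (k * (2 * Real.log 2 + 1)) with hC'
  have hp1 : 0 < 2 / κ₀ := by positivity
  have hp2 : 0 < 2 / δ := by positivity
  have hp3 : 0 ≤ (n₁ : ℝ) ^ k := by positivity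
  have hp4 : 0 < Real.exp (k * (2 * Real.log 2 + 1)) := Real.exp_pos _
  have hC'1 : 1 ≤ C' := by rw [hC']; linarith
  have hC'κ : 2 / κ₀ ≤ C' := by rw [hC']; linarith
  have hC'δ : 2 / δ ≤ C' := by rw [hC']; linarith
  have hC'n : (n₁ : ℝ) ^ k ≤ C' := by rw [hC']; linarith
  have hC'e : Real.exp (k * (2 * Real.log 2 + 1)) ≤ C' := by rw [hC']; linarith
  have hC'0 : 0 < C' := by linarith
  clear_value C'
  have hCκ : 1 / C' ≤ κ₀ / 2 := by
    rw [div_le_iff₀ hC'0]
    have h1 : κ₀ / 2 * (2 / κ₀) ≤ κ₀ / 2 * C' := mul_le_mul_of_nonneg_left hC'κ (by positivity)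
    have h2 : κ₀ / 2 * (2 / κ₀) = 1 := by field_simp
    linarith
  have hCδ : 1 / C' ≤ δ / 2 := by
    rw [div_le_iff₀ hC'0]
    have h1 : δ / 2 * (2 / δ) ≤ δ / 2 * C' := mul_le_mul_of_nonneg_left hC'δ (by positivity)
    have h2 : δ / 2 * (2 / δ) = 1 := by field_simp
    linarith
  refine ⟨C', hC'1, ?_⟩
  intro A P F hA0 hA3 hP hF hfew hWt
  have hAne : A.Nonempty := card_pos.1 (by omega)
  have hN1 : (1 : ℝ) ≤ A.card := by exact_mod_cast card_pos.2 hAne
  have hNpos : (0 : ℝ) < A.card := by linarith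
  have hF1 : (1 : ℝ) ≤ F := by exact_mod_cast hF
  have hFk : (1 : ℝ) ≤ (F : ℝ) ^ k := one_le_pow₀ hF1
  have hprodne : (prodSet k A).Nonempty := by
    unfold prodSet
    apply Nonempty.image
    rw [Fintype.piFinset_nonempty]
    exact fun _ => hAne
  have hprod1 : (1 : ℝ) ≤ ((prodSet k A).card : ℝ) := by exact_mod_cast card_pos.2 hprodne
  rcases lt_or_ge A.card n₁ with hlt | hge
  · -- small sets
    calc (A.card : ℝ) ^ ((k : ℝ) - ε) ≤ (A.card : ℝ) ^ (k : ℝ) :=
          Real.rpow_le_rpow_of_exponent_le hN1 (by linarith)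
      _ = (A.card : ℝ) ^ k := Real.rpow_natCast _ _
      _ ≤ (n₁ : ℝ) ^ k := pow_le_pow_left₀ hNpos.le (by exact_mod_cast hlt.le) k
      _ ≤ C' := hC'n
      _ = C' * 1 * 1 := by ring
      _ ≤ C' * (F : ℝ) ^ k * ((prodSet k A).card : ℝ) := by
          apply mul_le_mul _ hprod1 zero_le_one (by positivity)
          exact mul_le_mul_of_nonneg_left hFk hC'0.le
  have hNn₀ : n₀ ≤ A.card := le_trans (le_max_left _ _) hge
  have hN16 : 16 ≤ A.card := le_trans (le_max_right _ _) hge
  set L : ℝ := Real.log (A.card : ℝ) with hL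
  have hL1 : 1 < L := by
    rw [hL, Real.lt_log_iff_exp_lt hNpos]
    have h3 : Real.exp 1 < 2.7182818286 := Real.exp_one_lt_d9
    have h4 : (16 : ℝ) ≤ A.card := by exact_mod_cast hN16
    linarith
  have hLL : 0 < L * Real.log L := mul_pos (by linarith) (Real.log_pos hL1)
  -- the set of the elements with small fibres
  set Y : Finset ℤ := A.filter (fun a => (Pool.Agent.Helper88.PP.cls P A a).card ≤ F) with hY
  have hYA : Y ⊆ A := filter_subset _ _
  have hY0 : (0 : ℤ) ∉ Y := fun h => hA0 (hYA h)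
  have hYne : Y.Nonempty := by
    rw [← card_pos]
    have h1 : (0 : ℝ) < Y.card := by linarith
    exact_mod_cast h1
  have hYpos : (0 : ℝ) < Y.card := by exact_mod_cast card_pos.2 hYne
  have hfib : ∀ b ∈ Y, (Y.filter (fun b' => pf P b' = pf P b)).card ≤ F := by
    intro b hb
    refine le_trans (card_le_card ?_) (mem_filter.1 hb).2
    unfold Pool.Agent.Helper88.PP.cls
    exact filter_subset_filter _ hYA
  -- the levels
  set n : ℕ := bd (fun _ : Fin 1 => A) with hn
  set lam : ℕ → ℕ := fun q => lev (κ₀ / 2) A q with hlam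
  have hκ2 : 0 < κ₀ / 2 := by positivity
  have hlam0 : ∀ q, n ≤ q → lam q = 0 := by
    intro q hq
    exact lev_zero_of_bd (A := fun _ : Fin 1 => A) (fun _ => hA0) (l := 0) hq
  have hw : Wt n (fun q => if q ∈ P then 0 else lam q) < δ * (L * Real.log L) := by
    have h1 : Wt n (fun q => if q ∈ P then 0 else lam q) =
        ∑ q ∈ ((range n).filter Nat.Prime).filter (fun q => q ∉ P), (lam q : ℝ) * Real.log q := by
      unfold Wt
      rw [sum_filter (fun q => q ∉ P)]
      apply sum_congr rfl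
      intro q _
      by_cases hq : q ∈ P
      · simp [hq]
      · simp [hq]
    have h2 := hWt (((range n).filter Nat.Prime).filter (fun q => q ∉ P)) lam
      (fun p hp => ⟨(mem_filter.1 (mem_filter.1 hp).1).2, (mem_filter.1 hp).2⟩)
      (fun p _ => le_trans (mul_le_mul_of_nonneg_right hCκ hNpos.le)
        (lev_pop (by linarith) A p))
    rw [h1]
    refine lt_of_le_of_lt h2 ?_
    calc 1 / C' * (L * Real.log L) ≤ δ / 2 * (L * Real.log L) :=
          mul_le_mul_of_nonneg_right hCδ hLL.le
      _ < δ * (L * Real.log L) := by nlinarith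
  -- the number of close classes
  have hNζ1 : (1 : ℝ) ≤ (A.card : ℝ) ^ ζ := Real.one_le_rpow hN1 hζ0.le
  set M : ℕ := ⌈(A.card : ℝ) ^ ζ⌉₊ with hM
  have hMle : (A.card : ℝ) ^ ζ ≤ M := Nat.le_ceil _
  have hM1 : 1 ≤ M := by
    have : (1 : ℝ) ≤ M := hNζ1.trans hMle
    exact_mod_cast this
  have hlogM : Real.log M ≤ ζ * L + Real.log 2 := by
    have h5 : (M : ℝ) ≤ 2 * (A.card : ℝ) ^ ζ := by
      have := Nat.ceil_lt_add_one (show 0 ≤ (A.card : ℝ) ^ ζ by positivity)
      rw [← hM] at this
      linarith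
    have h6 := Real.log_le_log (by exact_mod_cast hM1) h5
    rw [Real.log_mul (by norm_num) (by positivity), Real.log_rpow hNpos] at h6
    linarith
  have hcount : ∀ z : ℤ, (((Y.image (pf P)).filter (fun z' =>
      Close (Ures K (2 * τ) L (Wt n (fun q => if q ∈ P then 0 else lam q))
        (fun q => if q ∈ P then 0 else lam q)) z z')).card) ≤ M := by
    intro z
    have h24 := hcnt A.card n (fun q => if q ∈ P then 0 else lam q) hNn₀
      (fun q hq => by
        split_ifs
        · rfl
        · exact hlam0 q hq) hw (Y.image (pf P)) z (by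
        intro h
        obtain ⟨a, ha, ha0⟩ := mem_image.1 h
        exact pf_ne_zero hP (fun h0 => hY0 (h0 ▸ ha)) ha0)
    exact_mod_cast h24.trans hMle
  have hstage := fib_stage (K := K) hτ (by linarith : (0 : ℝ) < L) hlam0 hP hY0 hfib hcount
  have hFM1 : 1 ≤ F * M := Nat.mul_pos hF hM1
  have key := hmain (fun _ => Y) L (F * M) n (fun _ => lam) hL1.le hFM1 (fun _ => hYne)
    (fun _ => hY0) (fun _ => by
      rw [hL, Real.exp_log hNpos]
      exact_mod_cast card_le_card hYA)
    (fun _ q hq => hlam0 q hq)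
    (fun l l' _ q hq => by
      have h23 := cdiv_lt hκ2 hAne hA0 hq (l := lam q + 1) (by simp only [hlam]; omega)
      have h24 : ((Y.filter (fun b => (q : ℤ) ^ (lam q + 1) ∣ b)).card : ℝ) ≤
          (cdiv A ((q : ℤ) ^ (lam q + 1)) : ℝ) := by
        unfold cdiv
        apply Nat.cast_le.2
        exact card_le_card (filter_subset_filter _ hYA)
      refine h24.trans (h23.le.trans ?_)
      calc κ₀ / 2 * (A.card : ℝ) ≤ κ₀ / 2 * (2 * (Y.card : ℝ)) :=
            mul_le_mul_of_nonneg_left hfew hκ2.le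
        _ = κ₀ * Y.card := by ring)
    (fun l _ => Or.inr hstage)
  have hsub : (Fintype.piFinset (fun _ : Fin k => Y)).image (fun f : Fin k → ℤ => ∏ i, f i) ⊆
      prodSet k A := by
    unfold prodSet
    apply image_subset_image
    intro f hf
    rw [Fintype.mem_piFinset] at hf ⊢
    exact fun l => hYA (hf l)
  have hYprodne :
      ((Fintype.piFinset (fun _ : Fin k => Y)).image
        (fun f : Fin k → ℤ => ∏ i, f i)).Nonempty := by
    apply Nonempty.image
    rw [Fintype.piFinset_nonempty]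
    exact fun _ => hYne
  have h27 : Real.log (((Fintype.piFinset (fun _ : Fin k => Y)).image
      (fun f : Fin k → ℤ => ∏ i, f i)).card) ≤ Real.log ((prodSet k A).card : ℝ) := by
    apply Real.log_le_log
    · exact_mod_cast card_pos.2 hYprodne
    · exact_mod_cast card_le_card hsub
  rw [sum_const, card_univ, Fintype.card_fin, nsmul_eq_mul] at key
  have hlogY : L - Real.log 2 ≤ Real.log (Y.card : ℝ) := by
    have h1 := Real.log_le_log hNpos hfew
    rw [Real.log_mul (by norm_num) hYpos.ne'] at h1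
    rw [hL]
    linarith
  have hlogFM : Real.log ((F * M : ℕ) : ℝ) ≤ Real.log F + (ζ * L + Real.log 2) := by
    push_cast
    rw [Real.log_mul (by positivity) (by positivity)]
    linarith
  have hk0 : (0 : ℝ) ≤ k := Nat.cast_nonneg k
  have hkey2 : (k : ℝ) * L - ε * L ≤
      k * (2 * Real.log 2 + 1) + k * Real.log F + Real.log ((prodSet k A).card : ℝ) := by
    have h1 : (k : ℝ) * (L - Real.log 2) ≤ k * Real.log (Y.card : ℝ) :=
      mul_le_mul_of_nonneg_left hlogY hk0
    have h2 : (k : ℝ) * (ζ * L + Real.log ((F * M : ℕ) : ℝ) + 1) ≤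
        k * (ζ * L + (Real.log F + (ζ * L + Real.log 2)) + 1) := by
      apply mul_le_mul_of_nonneg_left _ hk0
      linarith
    have h3 : (k : ℝ) * (2 * ζ) ≤ ε := by
      rw [hζ]
      have h4 : (k : ℝ) * (2 * (ε / (2 * (k + 1)))) = ε * (k / (k + 1)) := by
        field_simp
      rw [h4]
      have h5 : (k : ℝ) / (k + 1) ≤ 1 := by
        rw [div_le_one hk1]
        linarith
      calc ε * ((k : ℝ) / (k + 1)) ≤ ε * 1 := mul_le_mul_of_nonneg_left h5 hε.le
        _ = ε := mul_one _
    have h6 : (k : ℝ) * (2 * ζ) * L ≤ ε * L := mul_le_mul_of_nonneg_right h3 (by linarith)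
    nlinarith
  have hFpos : (0 : ℝ) < F := by linarith
  have hprodpos : (0 : ℝ) < ((prodSet k A).card : ℝ) := by linarith
  calc (A.card : ℝ) ^ ((k : ℝ) - ε) = Real.exp (k * L - ε * L) := by
        rw [Real.rpow_def_of_pos hNpos, ← hL]
        congr 1
        ring
    _ ≤ Real.exp (k * (2 * Real.log 2 + 1) + k * Real.log F +
          Real.log ((prodSet k A).card : ℝ)) := Real.exp_le_exp.2 hkey2
    _ = Real.exp (k * (2 * Real.log 2 + 1)) * (F : ℝ) ^ k * ((prodSet k A).card : ℝ) := by
        rw [Real.exp_add, Real.exp_add, Real.exp_log hprodpos]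
        congr 2
        rw [← Real.log_pow, Real.exp_log (by positivity)]
    _ ≤ C' * (F : ℝ) ^ k * ((prodSet k A).card : ℝ) := by
        apply mul_le_mul_of_nonneg_right _ hprodpos.le
        exact mul_le_mul_of_nonneg_right hC'e (by positivity)

end Pool.Agent.Helper34.PP
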